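import Pool.Agent.Y148.OD.Stm2

/-!
# Project OD, job OD-11: rational equivalence is stable under specialisation
-/

set_option autoImplicit false

namespace Pool.Agent.Y737.OD

open MvPolynomial Pool.Agent.Y148.OD

/-- The linear form with the coefficients `v`, over a ring. -/
noncomputable def linR {R τ : Type} [CommRing R] [Fintype τ] (v : τ → R) : MvPolynomial τ R :=
  ∑ a, C (v a) * X a

theorem map_linR {R S τ : Type} [CommRing R] [CommRing S] [Fintype τ] (f : R →+* S) (v : τ → R) :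
    MvPolynomial.map f (linR v) = linR fun a => f (v a) := by
  simp [linR]

theorem lin_ne_zero {Ω τ : Type} [Field Ω] [Fintype τ] (v : τ → Ω) (h : v ≠ 0) : lin v ≠ 0 := by
  classical
  intro h0
  apply h
  funext a
  have h1 := congrArg (eval (Pi.single a (1 : Ω))) h0
  simpa [lin, Pi.single_apply] using h1

theorem lin_smul {Ω τ : Type} [Field Ω] [Fintype τ] (c : Ω) (v : τ → Ω) :
    lin (fun a => c * v a) = C c * lin v := by
  simp [lin, Finset.mul_sum, mul_assoc]

/-- proportional Chow forms are forms of rationally equivalent zero-cycles -/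
theorem const_step {Ω τ P : Type} [Field Ω] [Fintype τ] (ℓ : P → MvPolynomial τ Ω) (n : ℕ)
    (x z : Fin n → P) (c : Ω) (hc : c ≠ 0) (h : C c * chow ℓ x = chow ℓ z) :
    ∑ i, FreeAbelianGroup.of (x i) - ∑ i, FreeAbelianGroup.of (z i) ∈ ratSub ℓ := by
  refine AddSubgroup.subset_closure ⟨n, x, z, ⟨c, 1, hc, one_ne_zero, Polynomial.C (C c * chow ℓ x),
    ?_, ?_, ?_⟩, rfl⟩
  · exact Polynomial.coeff_C_zero
  · rw [Polynomial.leadingCoeff_C, h, C_1, one_mul]
  · intro s
    rw [Polynomial.eval_C]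
    exact ⟨c, x, rfl⟩

theorem prim {Ω τ : Type} [Field Ω] [Fintype τ] (V : Set (τ → Ω)) (K : Subfield Ω)
    (O : ValuationSubring K) (n m : ℕ) (z : Fin n → V) (w : Fin m → V) (zO : Fin n → τ → O)
    (wO : Fin m → τ → O) (d : Fin m → K) (hd : ∀ i, d i ≠ 0)
    (hz : ∀ i a, (((zO i a : O) : K) : Ω) = (z i : τ → Ω) a)
    (hw : ∀ i a, (((wO i a : O) : K) : Ω) = (d i : Ω) * (w i : τ → Ω) a)
    (cK : K) (hc : cK ≠ 0) (E : MvPolynomial τ K)
    (hE : MvPolynomial.map (algebraMap K Ω) E = C (cK : Ω) * chow (vlin V) (Fin.append z w)) :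
    ∃ r : K, r ≠ 0 ∧ E = C r * MvPolynomial.map (algebraMap O K)
      ((∏ i, linR (zO i)) * ∏ i, linR (wO i)) := by
  have hD : ∏ i, d i ≠ 0 := Finset.prod_ne_zero_iff.2 fun i _ => hd i
  refine ⟨cK / ∏ i, d i, div_ne_zero hc hD, ?_⟩
  apply MvPolynomial.map_injective (algebraMap K Ω) (algebraMap K Ω).injective
  rw [hE, map_mul, map_C, MvPolynomial.map_map, map_mul, map_prod, map_prod]
  have h1 : ∀ i, MvPolynomial.map ((algebraMap K Ω).comp (algebraMap O K)) (linR (zO i)) =
      lin (z i : τ → Ω) := by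
    intro i
    rw [map_linR]
    have : (fun a => ((algebraMap K Ω).comp (algebraMap O K)) (zO i a)) = (z i : τ → Ω) := by
      funext a
      exact hz i a
    rw [this]
    rfl
  have h2 : ∀ i, MvPolynomial.map ((algebraMap K Ω).comp (algebraMap O K)) (linR (wO i)) =
      C (d i : Ω) * lin (w i : τ → Ω) := by
    intro i
    rw [map_linR, ← lin_smul]
    have : (fun a => ((algebraMap K Ω).comp (algebraMap O K)) (wO i a)) =
        fun a => (d i : Ω) * (w i : τ → Ω) a := by
      funext a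
      exact hw i a
    rw [this]
    rfl
  simp_rw [h1, h2]
  rw [Finset.prod_mul_distrib, ← map_prod (C : Ω →+* MvPolynomial τ Ω)]
  have h3 : chow (vlin V) (Fin.append z w) = (∏ i, lin (z i : τ → Ω)) * ∏ i, lin (w i : τ → Ω) := by
    rw [chow, Fin.prod_univ_add]
    simp only [Fin.append_left, Fin.append_right, vlin]
  have h4 : (algebraMap K Ω) (cK / ∏ i, d i) * ∏ i, (d i : Ω) = (cK : Ω) := by
    have e : (∏ i, (d i : Ω)) = algebraMap K Ω (∏ i, d i) := by
      rw [map_prod]
      rfl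
    rw [e, ← map_mul, div_mul_cancel₀ _ hD]
    rfl
  rw [h3, ← h4, C_mul]
  ring

theorem theta_form {Ω τ : Type} [Field Ω] [Fintype τ] (V : Set (τ → Ω)) {O : Type} [CommRing O]
    (θ : O →+* Ω) (n m : ℕ) (z : Fin n → V) (w : Fin m → V) (zO : Fin n → τ → O)
    (wO : Fin m → τ → O) (hz : ∀ i a, θ (zO i a) = (z i : τ → Ω) a)
    (hw : ∀ i a, θ (wO i a) = (w i : τ → Ω) a) :
    MvPolynomial.map θ ((∏ i, linR (zO i)) * ∏ i, linR (wO i)) = chow (vlin V) (Fin.append z w) := by
  rw [map_mul, map_prod, map_prod, chow, Fin.prod_univ_add]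
  simp only [Fin.append_left, Fin.append_right, vlin, map_linR, hz, hw]
  rfl

theorem stab_of (hRat : StmRat) (hPlace : StmPlace) (hChain : StmChain) : StmStab := by
  intro Ω _ _ _ τ _ V k hk hV hcone n x y x' y' hxy hx'0 hy'0 hrel
  classical
  have hV0 := hV
  obtain ⟨S, hS⟩ := hV
  set φ : (Fin n ⊕ Fin n) × τ → Ω := fun p =>
    Sum.elim (fun i => (x i : τ → Ω)) (fun i => (y i : τ → Ω)) p.1 p.2 with hφ
  set φ' : (Fin n ⊕ Fin n) × τ → Ω := fun p => Sum.elim x' y' p.1 p.2 with hφ'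
  have hx : ∀ i, x' i ∈ V := by
    intro i
    rw [hS]
    refine ⟨hx'0 i, fun P hP => ?_⟩
    have h1 := ((hS (x i)).1 (x i).2).2 P hP
    have h2 := hrel (rename (fun a => ((Sum.inl i : Fin n ⊕ Fin n), a)) P)
      (by rw [aeval_rename]; exact h1)
    rw [aeval_rename] at h2
    exact h2
  have hy : ∀ i, y' i ∈ V := by
    intro i
    rw [hS]
    refine ⟨hy'0 i, fun P hP => ?_⟩
    have h1 := ((hS (y i)).1 (y i).2).2 P hP
    have h2 := hrel (rename (fun a => ((Sum.inr i : Fin n ⊕ Fin n), a)) P)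
      (by rw [aeval_rename]; exact h1)
    rw [aeval_rename] at h2
    exact h2
  refine ⟨hx, hy, ?_⟩
  -- the subring generated by the coordinates
  let Φ : MvPolynomial ((Fin n ⊕ Fin n) × τ) k →+* Ω := (aeval φ).toRingHom
  let Φ' : MvPolynomial ((Fin n ⊕ Fin n) × τ) k →+* Ω := (aeval φ').toRingHom
  have hcR : Countable (MvPolynomial ((Fin n ⊕ Fin n) × τ) k) := by
    rw [← Cardinal.mk_le_aleph0_iff]
    refine MvPolynomial.cardinalMk_le_max.trans (max_le (max_le ?_ ?_) le_rfl)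
    · exact Cardinal.mk_le_aleph0_iff.2 hk
    · exact Cardinal.mk_le_aleph0
  let A : Subring Ω := Φ.range
  have hA : Countable A := Function.Surjective.countable Φ.rangeRestrict_surjective
  have hker : RingHom.ker Φ.rangeRestrict ≤ RingHom.ker Φ' := by
    intro P hP
    rw [RingHom.mem_ker] at hP ⊢
    have h1 : Φ P = 0 := congrArg Subtype.val hP
    exact hrel P h1
  let ψ : A →+* Ω := RingHom.liftOfSurjective Φ.rangeRestrict Φ.rangeRestrict_surjective ⟨Φ', hker⟩
  have hψ : ∀ P, ψ (Φ.rangeRestrict P) = Φ' P := fun P =>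
    RingHom.liftOfRightInverse_comp_apply Φ.rangeRestrict _ _ ⟨Φ', hker⟩ P
  have hne : ∀ p : V, vlin V p ≠ 0 := fun p => lin_ne_zero _ ((hS p).1 p.2).1
  obtain ⟨m, w, c, c', hc, hc', F, hF0, hFl, hFs⟩ := (hRat Ω τ V (vlin V) hne n x y).1 hxy
  -- the place
  let T : Set Ω := (Set.range fun p : ℕ × (τ →₀ ℕ) => coeff p.2 (F.coeff p.1)) ∪
    ((Set.range fun p : Fin m × τ => (w p.1 : τ → Ω) p.2) ∪ {c, c'})
  have hT : T.Countable := (Set.countable_range _).union
    ((Set.countable_range _).union (Set.toFinite _).countable)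
  obtain ⟨K, O, θ, hKc, hKa, hTK, hθ, hAO⟩ := hPlace Ω A hA ψ T hT
  let ι : O →+* Ω := (algebraMap K Ω).comp (algebraMap O K)
  have hι : Function.Injective ι :=
    (algebraMap K Ω).injective.comp (FaithfulSMul.algebraMap_injective O K)
  choose uA huA hθA using hAO
  have huA' : ∀ a, ι (uA a) = (a : Ω) := huA
  let jA : A →+* O :=
    { toFun := uA
      map_one' := hι (by rw [huA', map_one]; rfl)
      map_mul' := fun a b => hι (by rw [map_mul, huA', huA', huA']; rfl)
      map_zero' := hι (by rw [huA', map_zero]; rfl)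
      map_add' := fun a b => hι (by rw [map_add, huA', huA', huA']; rfl) }
  let jk : k →+* O := (jA.comp Φ.rangeRestrict).comp C
  have hjk : ∀ a, ι (jk a) = (a : Ω) := by
    intro a
    show ι (uA _) = _
    rw [huA']
    show aeval φ (C a) = _
    rw [aeval_C]
    rfl
  have hθk : ∀ a, θ (jk a) = (a : Ω) := by
    intro a
    show θ (uA _) = _
    rw [hθA, hψ]
    show aeval φ' (C a) = _
    rw [aeval_C]
    rfl
  -- the coordinates in the valuation ring
  let q : (Fin n ⊕ Fin n) × τ → O := fun p => jA (Φ.rangeRestrict (X p))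
  have hq : ∀ p, ι (q p) = φ p := by
    intro p
    show ι (uA _) = _
    rw [huA']
    show aeval φ (X p) = _
    rw [aeval_X]
  have hq' : ∀ p, θ (q p) = φ' p := by
    intro p
    show θ (uA _) = _
    rw [hθA, hψ]
    show aeval φ' (X p) = _
    rw [aeval_X]
  let xO : Fin n → τ → O := fun i a => q (Sum.inl i, a)
  let yO : Fin n → τ → O := fun i a => q (Sum.inr i, a)
  -- the auxiliary points
  have hwK : ∀ i a, (w i : τ → Ω) a ∈ K := fun i a => hTK (Or.inr (Or.inl ⟨(i, a), rfl⟩))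
  let wK : Fin m → τ → K := fun i a => ⟨(w i : τ → Ω) a, hwK i a⟩
  have hb : ∀ i, ∃ b : τ, ∀ a, O.valuation (wK i a) ≤ O.valuation (wK i b) := by
    intro i
    have hw0 : (w i : τ → Ω) ≠ 0 := ((hS (w i)).1 (w i).2).1
    have : Nonempty τ := by
      by_contra hn
      rw [not_nonempty_iff] at hn
      exact hw0 (funext fun a => (hn.false a).elim)
    exact Finite.exists_max fun a => O.valuation (wK i a)
  choose b hb using hb
  have hwb : ∀ i, wK i (b i) ≠ 0 := by
    intro i h0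
    apply ((hS (w i)).1 (w i).2).1
    funext a
    have h1 := hb i a
    rw [h0, map_zero, le_zero_iff] at h1
    have h2 := (map_eq_zero _).1 h1
    exact congrArg Subtype.val h2
  let d : Fin m → K := fun i => (wK i (b i))⁻¹
  have hd : ∀ i, d i ≠ 0 := fun i => inv_ne_zero (hwb i)
  have hmem : ∀ i a, d i * wK i a ∈ O := by
    intro i a
    rw [← ValuationSubring.valuation_le_one_iff, map_mul, map_inv₀]
    have h0 : O.valuation (wK i (b i)) ≠ 0 := (map_ne_zero _).2 (hwb i)
    calc (O.valuation (wK i (b i)))⁻¹ * O.valuation (wK i a)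
        ≤ (O.valuation (wK i (b i)))⁻¹ * O.valuation (wK i (b i)) := by gcongr; exact hb i a
      _ = 1 := inv_mul_cancel₀ h0
  let wO : Fin m → τ → O := fun i a => ⟨d i * wK i a, hmem i a⟩
  have hwO1 : ∀ i, wO i (b i) = 1 := fun i => Subtype.ext (inv_mul_cancel₀ (hwb i))
  have hwO : ∀ i a, ι (wO i a) = (d i : Ω) * (w i : τ → Ω) a := fun i a => rfl
  let w1 : Fin m → τ → Ω := fun i a => θ (wO i a)
  have hw1 : ∀ i, w1 i ∈ V := by
    intro i
    rw [hS]
    refine ⟨fun h0 => ?_, fun P hP => ?_⟩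
    · have h1 : θ (wO i (b i)) = 0 := congrFun h0 (b i)
      rw [hwO1, map_one] at h1
      exact one_ne_zero h1
    · have hdi : (d i : Ω) ≠ 0 := fun h => hd i (Subtype.ext h)
      have h1 := ((hS _).1 (hcone (d i : Ω) (w i) hdi (w i).2)).2 P hP
      have h2 : eval₂ jk (wO i) P = 0 := by
        apply hι
        rw [map_zero, MvPolynomial.hom_eval₂,
          show ι.comp jk = algebraMap k Ω from RingHom.ext hjk]
        exact h1
      have h3 := congrArg θ h2
      rw [map_zero, MvPolynomial.hom_eval₂,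
        show θ.comp jk = algebraMap k Ω from RingHom.ext hθk] at h3
      exact h3
  let w' : Fin m → V := fun i => ⟨w1 i, hw1 i⟩
  -- the family over `K`
  have hFK : F ∈ Polynomial.lifts (MvPolynomial.map (algebraMap K Ω)) := by
    rw [Polynomial.lifts_iff_coeff_lifts]
    intro i
    rw [mem_range_map_iff_coeffs_subset]
    intro z hz
    obtain ⟨j, _, rfl⟩ := mem_coeffs_iff.1 (Finset.mem_coe.1 hz)
    exact ⟨⟨_, hTK (Or.inl ⟨(i, j), rfl⟩)⟩, rfl⟩
  obtain ⟨F0, hF0F⟩ := (Polynomial.mem_lifts F).1 hFK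
  have hmapinj : Function.Injective (MvPolynomial.map (σ := τ) (algebraMap K Ω)) :=
    MvPolynomial.map_injective _ (algebraMap K Ω).injective
  have hcK : c ∈ K := hTK (Or.inr (Or.inr (Or.inl rfl)))
  have hcK' : c' ∈ K := hTK (Or.inr (Or.inr (Or.inr rfl)))
  let X' : Fin n → V := fun i => ⟨x' i, hx i⟩
  let Y' : Fin n → V := fun i => ⟨y' i, hy i⟩
  have e0 := prim V K O n m x w xO wO d hd (fun i a => hq (Sum.inl i, a)) hwO ⟨c, hcK⟩
    (fun h => hc (congrArg Subtype.val h)) (F0.coeff 0) (by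
      rw [← hF0, ← hF0F, Polynomial.coeff_map])
  have e1 := prim V K O n m y w yO wO d hd (fun i a => hq (Sum.inr i, a)) hwO ⟨c', hcK'⟩
    (fun h => hc' (congrArg Subtype.val h)) F0.leadingCoeff (by
      rw [← hFl, ← hF0F, Polynomial.leadingCoeff_map_of_injective hmapinj])
  have t0 := theta_form V θ n m X' w' xO wO (fun i a => hq' (Sum.inl i, a)) fun i a => rfl
  have t1 := theta_form V θ n m Y' w' yO wO (fun i a => hq' (Sum.inr i, a)) fun i a => rfl
  have hch : ∀ Z : Fin (n + m) → V, chow (vlin V) Z ≠ 0 := fun Z =>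
    Finset.prod_ne_zero_iff.2 fun i _ => hne (Z i)
  obtain ⟨c1, c2, X1, Y1, hc1, hc2, hX1, hY1, hXY⟩ := hChain Ω τ V k hV0 hcone K O θ hKc hKa hθ
    (fun a => ⟨jk a, hjk a, hθk a⟩) (n + m) F0 (fun s => by rw [hF0F]; exact hFs s)
    ((∏ i, linR (xO i)) * ∏ i, linR (wO i)) ((∏ i, linR (yO i)) * ∏ i, linR (wO i))
    (by rw [t0]; exact hch _) (by rw [t1]; exact hch _) e0 e1
  rw [t0] at hX1
  rw [t1] at hY1
  have k0 := const_step (vlin V) (n + m) X1 (Fin.append X' w') c1 hc1 hX1.symm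
  have k1 := const_step (vlin V) (n + m) Y1 (Fin.append Y' w') c2 hc2 hY1.symm
  have k2 := (ratSub (vlin V)).add_mem ((ratSub (vlin V)).sub_mem hXY k0) k1
  rw [Fin.sum_univ_add (fun i => FreeAbelianGroup.of (Fin.append X' w' i)),
    Fin.sum_univ_add (fun i => FreeAbelianGroup.of (Fin.append Y' w' i))] at k2
  simp only [Fin.append_left, Fin.append_right] at k2
  have k3 : ∑ i, FreeAbelianGroup.of (X1 i) - ∑ i, FreeAbelianGroup.of (Y1 i) -
      (∑ i, FreeAbelianGroup.of (X1 i) - (∑ i, FreeAbelianGroup.of (X' i) +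
        ∑ i, FreeAbelianGroup.of (w' i))) + (∑ i, FreeAbelianGroup.of (Y1 i) -
      (∑ i, FreeAbelianGroup.of (Y' i) + ∑ i, FreeAbelianGroup.of (w' i))) =
      ∑ i, FreeAbelianGroup.of (X' i) - ∑ i, FreeAbelianGroup.of (Y' i) := by
    abel
  rw [k3] at k2
  exact k2

end Pool.Agent.Y737.OD
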